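import Pool.Agent.MP_52bf41_ag.H12.Spec

/-! The standard curve over an algebraically closed field is prestable with rational tails. -/

open AlgebraicGeometry CategoryTheory IsLocalRing Polynomial

namespace Pool.Agent.MP_52bf41_ag.H36

open H12

section Points

variable {C : Scheme.{0}} {U : C.Opens}

theorem fromSpec_mem (hU : IsAffineOpen U) (p : PrimeSpectrum Γ(C, U)) : hU.fromSpec p ∈ U := by
  have : hU.fromSpec p ∈ Set.range hU.fromSpec := ⟨p, rfl⟩
  rwa [hU.range_fromSpec] at this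

theorem fromSpec_mem_basicOpen (hU : IsAffineOpen U) (p : PrimeSpectrum Γ(C, U)) (f : Γ(C, U)) :
    hU.fromSpec p ∈ C.basicOpen f ↔ f ∉ p.asIdeal := by
  have := hU.fromSpec_preimage_basicOpen f
  exact Iff.of_eq (congrArg (p ∈ ·) this)

theorem mem_prime (hU : IsAffineOpen U) {x : C} (hx : x ∈ U) (f : Γ(C, U)) :
    f ∈ (hU.primeIdealOf ⟨x, hx⟩).asIdeal ↔ x ∉ C.basicOpen f := by
  have := fromSpec_mem_basicOpen hU (hU.primeIdealOf ⟨x, hx⟩) f
  rw [hU.fromSpec_primeIdealOf] at this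
  exact not_not.symm.trans this.not.symm

theorem mem_closure_of (hU : IsAffineOpen U) {x y : C} (hx : x ∈ U)
    (h : ∀ f : Γ(C, U), x ∈ C.basicOpen f → y ∈ C.basicOpen f) : x ∈ closure {y} := by
  refine mem_closure_iff.mpr fun V hV hxV => ?_
  obtain ⟨f, hf, hxf⟩ := hU.exists_basicOpen_le (V := ⟨V, hV⟩) ⟨x, hxV⟩ hx
  exact ⟨y, hf (h f hxf), rfl⟩

theorem mem_of_closure {x y : C} (h : x ∈ closure {y}) {V : C.Opens} (hx : x ∈ V) : y ∈ V := by
  obtain ⟨z, hz, rfl⟩ := mem_closure_iff.mp h V V.isOpen hx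
  exact hz

theorem eq_of_closure {x y : C} (h : x ∈ closure {y}) (h' : y ∈ closure {x}) : x = y :=
  ((specializes_iff_mem_closure.mpr h').antisymm (specializes_iff_mem_closure.mpr h)).eq

theorem exists_generic (hU : IsAffineOpen U) [IsDomain Γ(C, U)] :
    ∃ η ∈ U, (∀ f : Γ(C, U), f ≠ 0 → η ∈ C.basicOpen f) ∧ ∀ x ∈ U, x ∈ closure {η} := by
  have h : ∀ f : Γ(C, U), f ≠ 0 → hU.fromSpec ⟨⊥, Ideal.isPrime_bot⟩ ∈ C.basicOpen f :=
    fun f hf => (fromSpec_mem_basicOpen hU _ f).mpr hf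
  refine ⟨_, fromSpec_mem hU _, h, fun x hx => mem_closure_of hU hx fun f hf => h f ?_⟩
  rintro rfl
  simp at hf

theorem not_mem_sub {b b' : Γ(C, U)} {x : C} (h : x ∉ C.basicOpen b) (h' : x ∉ C.basicOpen b') :
    x ∉ C.basicOpen (b - b') := by
  rw [sub_eq_add_neg, ← neg_one_mul]
  exact not_mem_basicOpen_add h (not_mem_basicOpen_mul _ h')

theorem mem_basicOpen_prod {ι : Type} (s : Finset ι) (b : ι → Γ(C, U)) {x : C} (hx : x ∈ U) :
    x ∈ C.basicOpen (∏ i ∈ s, b i) ↔ ∀ i ∈ s, x ∈ C.basicOpen (b i) := by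
  classical
  induction s using Finset.induction_on with
  | empty => simpa using hx
  | insert a s ha ih => simp only [Finset.prod_insert ha, mem_basicOpen_mul, ih,
      Finset.forall_mem_insert]

variable {k : Type} [Field k] {p : C ⟶ Spec (.of k)}

theorem const_eq_zero {x : C} (hx : x ∈ U) {c : k} (h : x ∉ C.basicOpen (alg p U c)) : c = 0 := by
  by_contra hc
  rw [basicOpen_of_isUnit ((IsUnit.mk0 c hc).map _)] at h
  exact h hx

theorem const_eq {x : C} (hx : x ∈ U) {f : Γ(C, U)} {c c' : k}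
    (h : x ∉ C.basicOpen (f - alg p U c)) (h' : x ∉ C.basicOpen (f - alg p U c')) : c = c' := by
  have := not_mem_sub h' h
  rw [sub_sub_sub_cancel_left, ← map_sub] at this
  exact sub_eq_zero.mp (const_eq_zero hx this)

/-- A rational point is closed. -/
theorem isClosed_of_const {x : C} (h : ∀ y ∈ closure {x}, ∃ U : C.Opens, IsAffineOpen U ∧ y ∈ U ∧
    ∀ f : Γ(C, U), ∃ c, x ∉ C.basicOpen (f - alg p U c)) : IsClosed ({x} : Set C) := by
  refine isClosed_of_closure_subset fun y hy => ?_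
  obtain ⟨U, hU, hyU, hc⟩ := h y hy
  refine eq_of_closure hy (mem_closure_of hU (mem_of_closure hy hyU) fun f hf => ?_)
  by_contra hyf
  obtain ⟨c, hc⟩ := hc f
  have h1 : y ∉ C.basicOpen (f - alg p U c) := fun h => hc (mem_of_closure hy h)
  have h2 := not_mem_sub hyf h1
  rw [sub_sub_cancel] at h2
  rw [const_eq_zero hyU h2, map_zero, sub_zero] at hc
  exact hc hf

theorem not_mem_of_ev (τ : Spec (.of k) ⟶ C) (h : ⊤ ≤ τ ⁻¹ᵁ U) {f : Γ(C, U)} (e : ev τ h f = 0) :
    τ (closedPoint k) ∉ C.basicOpen f := fun hx => by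
  have := (isUnit_ev_iff τ h f).mpr hx
  rw [e] at this
  exact not_isUnit_zero this

theorem isClosed_section (τ : Spec (.of k) ⟶ C) (hτ : τ ≫ p = 𝟙 _) :
    IsClosed ({τ (closedPoint k)} : Set C) := by
  refine isClosed_of_const (p := p) fun y hy => ?_
  obtain ⟨_, ⟨U, hU, rfl⟩, hyU, -⟩ :=
    C.isBasis_affineOpens.exists_subset_of_mem_open (Set.mem_univ y) isOpen_univ
  have h := top_le_preimage τ (mem_of_closure hy hyU)
  refine ⟨U, hU, hyU, fun f => ⟨ev τ h f, not_mem_of_ev τ h ?_⟩⟩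
  rw [map_sub, ev_alg τ hτ, sub_self]

/-- Nullstellensatz. -/
theorem exists_const [IsAlgClosed k] (hU : IsAffineOpen U) (hf : (alg p U).FiniteType) {x : C}
    (hx : x ∈ U) (hc : IsClosed ({x} : Set C)) (f : Γ(C, U)) :
    ∃ c, x ∉ C.basicOpen (f - alg p U c) := by
  have hm := hU.primeIdealOf_isMaximal_of_isClosed ⟨x, hx⟩ hc
  set m := (hU.primeIdealOf ⟨x, hx⟩).asIdeal with hm'
  let := Ideal.Quotient.field m
  let : Algebra k (Γ(C, U) ⧸ m) := ((Ideal.Quotient.mk m).comp (alg p U)).toAlgebra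
  have : Algebra.FiniteType k (Γ(C, U) ⧸ m) :=
    hf.comp_surjective Ideal.Quotient.mk_surjective
  have := finite_of_finite_type_of_isJacobsonRing k (Γ(C, U) ⧸ m)
  obtain ⟨c, hc⟩ := (IsAlgClosed.algebraMap_bijective_of_isIntegral (k := k)
    (K := Γ(C, U) ⧸ m)).2 (Ideal.Quotient.mk m f)
  exact ⟨c, (mem_prime hU hx _).mp (Ideal.Quotient.eq.mp hc.symm)⟩

theorem not_node {x : C} (h : LocType (PowerSeries k) C x) : ¬LocType (NodeRing k) C x := by
  rintro ⟨-, ⟨e'⟩⟩
  obtain ⟨-, ⟨e⟩⟩ := h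
  have : IsDomain (NodeRing k) := (e'.symm.trans e).toMulEquiv.isDomain _
  have key : ∀ i j : Fin 2, i ≠ j → (MvPowerSeries.X j : MvPowerSeries (Fin 2) k) ∣
      MvPowerSeries.X i → False := fun i j hij h => by
    have := MvPowerSeries.X_dvd_iff.mp h (Finsupp.single i 1) (by simp [hij.symm])
    simp [MvPowerSeries.coeff_index_single_self_X] at this
  have h0 : (Ideal.Quotient.mk _ (MvPowerSeries.X 0) : NodeRing k) *
      Ideal.Quotient.mk _ (MvPowerSeries.X 1) = 0 := by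
    rw [← map_mul, Ideal.Quotient.eq_zero_iff_mem]
    exact Ideal.mem_span_singleton_self _
  rcases mul_eq_zero.mp h0 with h | h
  · rw [Ideal.Quotient.eq_zero_iff_mem, Ideal.mem_span_singleton] at h
    exact key 0 1 (by decide) ((Dvd.intro_left _ rfl).trans h)
  · rw [Ideal.Quotient.eq_zero_iff_mem, Ideal.mem_span_singleton] at h
    exact key 1 0 (by decide) ((Dvd.intro _ rfl).trans h)

end Points

section Algebra

variable {k B : Type} [Field k] [CommRing B] {D : ℕ} {φ : k →+* B} {u : Option (Fin D) → B}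
  {q t : Fin D → k}

theorem pres_rel (h : Pres φ u q t) (i : Fin D) : (u none - φ (q i)) * u (some i) = φ (t i) := by
  have := (h.2 _).mpr (Ideal.subset_span ⟨i, rfl⟩)
  simpa [rel, sub_eq_zero] using this

theorem pres_lift (h : Pres φ u q t) {R : Type} [CommRing R] (χ : k →+* R)
    (v : Option (Fin D) → R) (hv : ∀ i, (v none - χ (q i)) * v (some i) = χ (t i)) :
    ∃ ψ : B →+* R, (∀ c, ψ (φ c) = χ c) ∧ ∀ a, ψ (u a) = v a := by
  have hk : RingHom.ker (MvPolynomial.eval₂Hom φ u) ≤ RingHom.ker (MvPolynomial.eval₂Hom χ v) := by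
    intro f hf
    refine (Ideal.span_le.mpr ?_ : _ ≤ RingHom.ker (MvPolynomial.eval₂Hom χ v)) ((h.2 f).mp hf)
    rintro _ ⟨i, rfl⟩
    simp [rel, hv]
  have e := RingHom.liftOfSurjective_comp_apply _ h.1 ⟨_, hk⟩
  exact ⟨_, fun c => by simpa using e (MvPolynomial.C c), fun a => by simpa using e (.X a)⟩

theorem pres_ind (h : Pres φ u q t) (S : Subring B) (h1 : ∀ c, φ c ∈ S) (h2 : ∀ a, u a ∈ S)
    (b : B) : b ∈ S := by
  obtain ⟨f, rfl⟩ := h.1 b
  induction f using MvPolynomial.induction_on with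
  | C c => simpa using h1 c
  | add f g hf hg => simpa using S.add_mem hf hg
  | mul_X f a hf => simpa using S.mul_mem hf (h2 a)

theorem const_mod (h : Pres φ u q t) (P : Ideal B) (hu : ∀ a, ∃ c, u a - φ c ∈ P) (b : B) :
    ∃ c, b - φ c ∈ P := by
  have := pres_ind h (((Ideal.Quotient.mk P).comp φ).range.comap (Ideal.Quotient.mk P))
    (fun c => ⟨c, rfl⟩) (fun a => (hu a).imp fun c hc => (Ideal.Quotient.eq.mpr hc).symm) b
  exact this.imp fun c hc => Ideal.Quotient.eq.mp hc.symm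

/-- If `z` has a value, so have the `w_l` away from the tails. -/
theorem const_w (h : Pres φ u q t) {P : Ideal B} {c : k} (hc : u none - φ c ∈ P) {l : Fin D}
    (hl : c ≠ q l) : ∃ c', u (some l) - φ c' ∈ P := by
  refine ⟨t l / (c - q l), ?_⟩
  have h1 : φ (c - q l)⁻¹ * (φ c - φ (q l)) = 1 := by
    rw [← map_sub, ← map_mul, inv_mul_cancel₀ (sub_ne_zero.mpr hl), map_one]
  have : u (some l) - φ (t l / (c - q l)) = -(φ (c - q l)⁻¹ * u (some l)) * (u none - φ c) := by
    rw [div_eq_mul_inv, map_mul, ← pres_rel h l]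
    linear_combination (-u (some l)) * h1
  rw [this]
  exact P.mul_mem_left _ hc

/-- The generic point of the main component. -/
theorem exists_main (h : Pres φ u q t) : ∃ Q : PrimeSpectrum B, u none ∉ Q.asIdeal ∧
    (∀ l, u none - φ (q l) ∉ Q.asIdeal) ∧ ∀ P : Ideal B, P.IsPrime →
      (∀ l, u none - φ (q l) ∉ P ∨ (u (some l) ∈ P ∧ t l = 0)) → Q.asIdeal ≤ P := by
  let ι := algebraMap k[X] (FractionRing k[X])
  have hι : Function.Injective ι := IsFractionRing.injective _ _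
  have hne : ∀ c : k, ι X - ι (C c) ≠ 0 := fun c => by
    rw [← map_sub, map_ne_zero_iff _ hι]
    exact X_sub_C_ne_zero c
  obtain ⟨ψ, h1, h2⟩ := pres_lift h (ι.comp C)
    (fun a => a.elim (ι X) fun l => ι (C (t l)) / (ι X - ι (C (q l))))
    fun i => mul_div_cancel₀ _ (hne _)
  have h3 : ∀ f : k[X], ψ (eval₂RingHom φ (u none) f) = ι f := fun f => by
    have : ψ.comp (eval₂RingHom φ (u none)) = ι :=
      Polynomial.ringHom_ext (fun c => by simp [h1]) (by simp [h2])
    exact RingHom.congr_fun this f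
  refine ⟨⟨RingHom.ker ψ, RingHom.ker_isPrime ψ⟩, ?_, fun l => ?_, fun P hP hl b hb => ?_⟩
  · simpa [RingHom.mem_ker, h2] using hne 0
  · simpa [RingHom.mem_ker, h1, h2] using hne (q l)
  let J := RingHom.ker ψ ⊓ P
  let e := (Ideal.Quotient.mk J).comp (eval₂RingHom φ (u none))
  let S : Subring B :=
    { carrier := {b | ∃ g f : k[X], eval₂RingHom φ (u none) g ∉ P ∧
        e g * Ideal.Quotient.mk J b = e f}
      mul_mem' := by
        rintro a b ⟨g, f, hg, e1⟩ ⟨g', f', hg', e2⟩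
        refine ⟨g * g', f * f', by rw [map_mul]; exact fun h => (hP.mem_or_mem h).elim hg hg', ?_⟩
        simp only [map_mul, ← e1, ← e2]
        ring
      add_mem' := by
        rintro a b ⟨g, f, hg, e1⟩ ⟨g', f', hg', e2⟩
        refine ⟨g * g', g' * f + g * f',
          by rw [map_mul]; exact fun h => (hP.mem_or_mem h).elim hg hg', ?_⟩
        simp only [map_mul, map_add, ← e1, ← e2]
        ring
      one_mem' := ⟨1, 1, by simpa using hP.one_notMem, by simp⟩
      zero_mem' := ⟨1, 0, by simpa using hP.one_notMem, by simp⟩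
      neg_mem' := by
        rintro a ⟨g, f, hg, e1⟩
        exact ⟨g, -f, hg, by simp [← e1]⟩ }
  have hS : b ∈ S := by
    refine pres_ind h S (fun c => ⟨1, C c, by simpa using hP.one_notMem, by simp [e]⟩) ?_ b
    rintro (_ | l)
    · exact ⟨1, X, by simpa using hP.one_notMem, by simp [e]⟩
    rcases hl l with hl | hl
    · refine ⟨X - C (q l), C (t l), by simpa using hl, ?_⟩
      simp only [e, RingHom.comp_apply, ← map_mul]
      simp [pres_rel h l]
    · refine ⟨1, 0, by simpa using hP.one_notMem, ?_⟩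
      rw [map_one, map_zero, one_mul, Ideal.Quotient.eq_zero_iff_mem]
      exact ⟨by simp [RingHom.mem_ker, h2, hl.2], hl.1⟩
  obtain ⟨g, f, hg, e1⟩ := hS
  simp only [e, RingHom.comp_apply, ← map_mul] at e1
  obtain ⟨e2, e3⟩ := Ideal.Quotient.eq.mp e1
  have hb' : ψ b = 0 := hb
  replace e2 : ψ _ = 0 := e2
  rw [map_sub, map_mul, hb', mul_zero, zero_sub, neg_eq_zero, h3] at e2
  have hf : f = 0 := hι (e2.trans (map_zero ι).symm)
  rw [hf, map_zero, sub_zero] at e3
  exact (hP.mem_or_mem e3).resolve_left hg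

/-- The generic point of a tail and its node. -/
theorem exists_tail (hq : Good q) (h : Pres φ u q t) {i : Fin D} (hi : t i = 0) :
    ∃ Q N : PrimeSpectrum B, u (some i) ∉ Q.asIdeal ∧ u none - φ (q i) ∈ Q.asIdeal ∧
      Q.asIdeal ≤ N.asIdeal ∧ u (some i) ∈ N.asIdeal := by
  obtain ⟨ψ, h1, h2⟩ := pres_lift h (C : k →+* k[X])
    (fun a => a.elim (C (q i)) fun l => if l = i then X else C (t l / (q i - q l))) fun l => by
      by_cases e : l = i
      · simp [e, hi]
      · simp only [Option.elim, if_neg e, ← C_sub, ← C_mul]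
        rw [mul_div_cancel₀ _ (hq.1 i l (Ne.symm e)).ne_zero]
  refine ⟨⟨RingHom.ker ψ, RingHom.ker_isPrime ψ⟩, ⟨RingHom.ker ((evalRingHom 0).comp ψ),
    RingHom.ker_isPrime _⟩, ?_, ?_, fun b hb => ?_, ?_⟩
  · simp [RingHom.mem_ker, h2]
  · simp [RingHom.mem_ker, h1, h2]
  · have hb' : ψ b = 0 := hb
    simp [RingHom.mem_ker, hb']
  · simp [RingHom.mem_ker, h2]

end Algebra

section Main

variable {k : Type} [Field k] {D : ℕ} {F : Fam (Spec (.of k))} {q t : Fin D → k} (S : Std F q t)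

/-- The function `z - c`. -/
noncomputable def zc (c : k) : Γ(F.C, S.O0) := S.u none - alg F.π S.O0 c

/-- The foot of the `i`-th tail. -/
def Nd (i : Fin D) (x : F.C) : Prop :=
  x ∈ S.O0 ∧ x ∉ F.C.basicOpen (zc S (q i)) ∧ x ∉ F.C.basicOpen (S.u (some i))

theorem mem_none {x : F.C} (hx : x ∈ S.O0) : x ∈ S.O none ↔
    x ∈ F.C.basicOpen (S.u none) ∧ ∀ l, x ∈ F.C.basicOpen (zc S (q l)) := by
  have : x ∈ S.O none ↔ x ∈ S.O0 ⊓ S.O none := ⟨fun h => ⟨hx, h⟩, fun h => h.2⟩
  rw [this, S.inter0]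
  simp [hpol, mem_basicOpen_prod _ _ hx, zc]

theorem mem_some {x : F.C} (hx : x ∈ S.O0) (i : Fin D) : x ∈ S.O (some i) ↔
    x ∈ F.C.basicOpen (S.u (some i)) ∧ ∀ l ≠ i, x ∈ F.C.basicOpen (zc S (q l)) := by
  have : x ∈ S.O (some i) ↔ x ∈ S.O0 ⊓ S.O (some i) := ⟨fun h => ⟨hx, h⟩, fun h => h.2⟩
  rw [this, S.inter0]
  simp [hpol, mem_basicOpen_prod _ _ hx, zc]

theorem mem_cover (x : F.C) : x ∈ S.O0 ∨ ∃ a, x ∈ S.O a := by
  have : x ∈ S.O0 ⊔ iSup S.O := S.cover.ge (Set.mem_univ x)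
  exact this.imp id TopologicalSpace.Opens.mem_iSup.mp

theorem t_ne_iff {x : F.C} (hx : x ∈ S.O0) (i : Fin D) :
    x ∈ F.C.basicOpen (zc S (q i)) ∧ x ∈ F.C.basicOpen (S.u (some i)) ↔ t i ≠ 0 := by
  rw [← mem_basicOpen_mul, zc, pres_rel S.pres]
  refine ⟨fun h e => ?_, fun h => by_contra fun h' => h (const_eq_zero hx h')⟩
  simp [e] at h

theorem zc_other (hq : Good q) {x : F.C} (hx : x ∈ S.O0) {i l : Fin D}
    (h : x ∉ F.C.basicOpen (zc S (q i))) (hl : l ≠ i) : x ∈ F.C.basicOpen (zc S (q l)) :=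
  by_contra fun h' => (hq.1 l i hl).ne_zero (sub_eq_zero.mpr (const_eq hx h' h))

theorem Nd.not_mem {i : Fin D} {x : F.C} (h : Nd S i x) : ∀ a, x ∉ S.O a
  | none => fun hx => h.2.1 (((mem_none S h.1).mp hx).2 i)
  | some l => fun hx => by
    obtain ⟨h1, h2⟩ := (mem_some S h.1 l).mp hx
    by_cases e : i = l
    · exact h.2.2 (e ▸ h1)
    · exact h.2.1 (h2 i e)

theorem nd_const (hq : Good q) (i : Fin D) (f : Γ(F.C, S.O0)) :
    ∃ c, ∀ x, Nd S i x → x ∉ F.C.basicOpen (f - alg F.π S.O0 c) := by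
  let P : Ideal Γ(F.C, S.O0) := Ideal.span {zc S (q i), S.u (some i)}
  have h1 : zc S (q i) ∈ P := Ideal.subset_span (by simp)
  obtain ⟨c, hc⟩ := const_mod S.pres P (by
    rintro (_ | l)
    · exact ⟨_, h1⟩
    by_cases e : i = l
    · exact ⟨0, by rw [map_zero, sub_zero, ← e]; exact Ideal.subset_span (by simp)⟩
    · exact const_w S.pres h1 (sub_ne_zero.mp (hq.1 i l e).ne_zero)) f
  refine ⟨c, fun x hx => (mem_prime S.aff0 hx.1 _).mp ((Ideal.span_le.mpr ?_ : P ≤ _) hc)⟩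
  rintro _ (rfl | rfl)
  exacts [(mem_prime S.aff0 hx.1 _).mpr hx.2.1, (mem_prime S.aff0 hx.1 _).mpr hx.2.2]

theorem Nd.isClosed (hq : Good q) {i : Fin D} {x : F.C} (h : Nd S i x) :
    IsClosed ({x} : Set F.C) :=
  isClosed_of_const (p := F.π) fun y hy => ⟨S.O0, S.aff0,
    (mem_cover S y).resolve_right fun ⟨a, ha⟩ => h.not_mem S a (mem_of_closure hy ha),
    fun f => (nd_const S hq i f).imp fun _ hc => hc x h⟩

theorem Nd.unique (hq : Good q) {i : Fin D} {x y : F.C} (h : Nd S i x) (h' : Nd S i y) :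
    x = y := by
  have := mem_closure_of S.aff0 (y := y) h.1 fun f hf => by_contra fun hy => by
    obtain ⟨c, hc⟩ := nd_const S hq i f
    have h2 := not_mem_sub hy (hc y h')
    rw [sub_sub_cancel] at h2
    have h3 := hc x h
    rw [const_eq_zero h'.1 h2, map_zero, sub_zero] at h3
    exact h3 hf
  rwa [(h'.isClosed S hq).closure_eq] at this

theorem Nd.node (hC : SCplC) (hq : Good q) {i : Fin D} {x : F.C} (h : Nd S i x) :
    LocType (NodeRing k) F.C x := by
  let _ := TopCat.Presheaf.algebra_section_stalk F.C.presheaf (⟨x, h.1⟩ : S.O0)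
  have := S.aff0.isLocalization_stalk ⟨x, h.1⟩
  exact ⟨h.isClosed S hq, hC k _ _ (S.aff0.primeIdealOf ⟨x, h.1⟩).asIdeal D _ _ q t i hq S.pres
    ((mem_prime S.aff0 h.1 _).mpr h.2.1) ((mem_prime S.aff0 h.1 _).mpr h.2.2)⟩

theorem smooth0 (hB : SCplB) (hq : Good q) {x : F.C} (hx : x ∈ S.O0)
    (hc : IsClosed ({x} : Set F.C)) {c : k} (h : x ∉ F.C.basicOpen (zc S c)) (hl : ∀ l, c ≠ q l) :
    LocType (PowerSeries k) F.C x := by
  let _ := TopCat.Presheaf.algebra_section_stalk F.C.presheaf (⟨x, hx⟩ : S.O0)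
  have := S.aff0.isLocalization_stalk ⟨x, hx⟩
  exact ⟨hc, hB k _ _ (S.aff0.primeIdealOf ⟨x, hx⟩).asIdeal D _ _ q t c hq S.pres
    ((mem_prime S.aff0 hx _).mpr h) hl⟩

theorem smooth1 (hA : SCplA) {a : Option (Fin D)} {x : F.C} (hx : x ∈ S.O a)
    (hc : IsClosed ({x} : Set F.C)) {c : k}
    (h : x ∉ F.C.basicOpen (S.s a - alg F.π (S.O a) c)) : LocType (PowerSeries k) F.C x := by
  let _ := TopCat.Presheaf.algebra_section_stalk F.C.presheaf (⟨x, hx⟩ : S.O a)
  have := (S.aff a).isLocalization_stalk ⟨x, hx⟩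
  exact ⟨hc, hA k _ _ ((S.aff a).primeIdealOf ⟨x, hx⟩).asIdeal _ _ c (S.loc a)
    (by simpa using (mem_prime (S.aff a) hx _).mpr h)⟩

theorem finiteType0 : (alg F.π S.O0).FiniteType := by
  have : alg F.π S.O0 = (MvPolynomial.eval₂Hom (alg F.π S.O0) S.u).comp MvPolynomial.C := by
    ext c
    simp
  rw [this]
  exact (RingHom.FiniteType.of_surjective _ S.pres.1).comp
    (RingHom.finiteType_algebraMap.mpr (inferInstance : Algebra.FiniteType k _))

theorem finiteType1 (a : Option (Fin D)) : (alg F.π (S.O a)).FiniteType := by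
  have : alg F.π (S.O a) = (eval₂RingHom (alg F.π (S.O a)) (S.s a)).comp C := by
    ext c
    simp
  rw [this]
  let _ := (eval₂RingHom (alg F.π (S.O a)) (S.s a)).toAlgebra
  have : IsLocalization.Away (gpol q t a) Γ(F.C, S.O a) := S.loc a
  exact (RingHom.finiteType_holdsForLocalizationAway _ (gpol q t a)).comp
    (RingHom.finiteType_algebraMap.mpr (inferInstance : Algebra.FiniteType k k[X]))

/-- Classification of closed points. -/
theorem classify [IsAlgClosed k] (hA : SCplA) (hB : SCplB) (hq : Good q) {x : F.C}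
    (hc : IsClosed ({x} : Set F.C)) : LocType (PowerSeries k) F.C x ∨ ∃ i, Nd S i x := by
  by_cases h : ∃ a, x ∈ S.O a
  · obtain ⟨a, ha⟩ := h
    obtain ⟨c, h⟩ := exists_const (S.aff a) (finiteType1 S a) ha hc (S.s a)
    exact .inl (smooth1 S hA ha hc h)
  have hx := (mem_cover S x).resolve_right h
  obtain ⟨c, h1⟩ := exists_const S.aff0 (finiteType0 S) hx hc (S.u none)
  by_cases hl : ∀ l, c ≠ q l
  · exact .inl (smooth0 S hB hq hx hc h1 hl)
  obtain ⟨i, rfl⟩ : ∃ i, c = q i := by simpa using hl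
  exact .inr ⟨i, hx, h1, fun h2 =>
    h ⟨some i, (mem_some S hx i).mpr ⟨h2, fun l => zc_other S hq hx h1⟩⟩⟩

theorem gpol_ne_zero (hq : Good q) : ∀ a, gpol q t a ≠ 0
  | none => Finset.prod_ne_zero_iff.mpr fun i _ h => by simpa using congrArg (eval 0) h
  | some i => Finset.prod_ne_zero_iff.mpr fun l hl h =>
      (hq.1 i l (Finset.ne_of_mem_erase hl).symm).ne_zero (by simpa using congrArg (eval 0) h)

/-- The generic points of the charts around the poles. -/
theorem exists_eta (hq : Good q) (a : Option (Fin D)) :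
    ∃ η ∈ S.O0, η ∈ S.O a ∧ ∀ x ∈ S.O a, x ∈ closure {η} := by
  let _ := (eval₂RingHom (alg F.π (S.O a)) (S.s a)).toAlgebra
  have : IsLocalization.Away (gpol q t a) Γ(F.C, S.O a) := S.loc a
  have hM := powers_le_nonZeroDivisors_of_noZeroDivisors (gpol_ne_zero (t := t) hq a)
  have := IsLocalization.isDomain_of_le_nonZeroDivisors Γ(F.C, S.O a) hM
  obtain ⟨η, h1, h2, h3⟩ := exists_generic (S.aff a)
  have h4 : S.s a ≠ 0 := fun e => X_ne_zero (IsLocalization.injective Γ(F.C, S.O a) hM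
    (by simpa [RingHom.algebraMap_toAlgebra] using e))
  exact ⟨η, ((S.inter a).ge (h2 _ h4)).1, h1, h3⟩

theorem mem_main {η : F.C} (hη : ∀ x ∈ S.O none, x ∈ closure {η}) {x : F.C} (hx : x ∈ S.O0)
    (h : ∀ l, x ∈ F.C.basicOpen (zc S (q l)) ∨ (x ∉ F.C.basicOpen (S.u (some l)) ∧ t l = 0)) :
    x ∈ closure {η} := by
  obtain ⟨Q, h1, h2, h3⟩ := exists_main S.pres
  have h4 := h3 _ (S.aff0.primeIdealOf ⟨x, hx⟩).isPrime fun l => (h l).imp
    (fun h h' => (mem_prime S.aff0 hx _).mp h' h) fun h => ⟨(mem_prime S.aff0 hx _).mpr h.1, h.2⟩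
  have h5 : S.aff0.fromSpec Q ∈ S.O none := (mem_none S (fromSpec_mem _ _)).mpr
    ⟨(fromSpec_mem_basicOpen _ _ _).mpr h1, fun l => (fromSpec_mem_basicOpen _ _ _).mpr (h2 l)⟩
  exact closure_minimal (Set.singleton_subset_iff.mpr (hη _ h5)) isClosed_closure
    (mem_closure_of S.aff0 hx fun f hf => (fromSpec_mem_basicOpen _ _ _).mpr fun h =>
      (mem_prime S.aff0 hx _).mp (h4 h) hf)

theorem Nd.mem_main (hq : Good q) {η : F.C} (hη : ∀ x ∈ S.O none, x ∈ closure {η}) {i : Fin D}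
    (hi : t i = 0) {x : F.C} (h : Nd S i x) : x ∈ closure {η} :=
  H36.mem_main S hη h.1 fun l => by
    by_cases e : l = i
    · exact .inr (e ▸ ⟨h.2.2, hi⟩)
    · exact .inl (zc_other S hq h.1 h.2.1 e)

theorem exists_nd (hq : Good q) {i : Fin D} (hi : t i = 0) {η : F.C}
    (hη : ∀ x ∈ S.O (some i), x ∈ closure {η}) : ∃ x ∈ closure {η}, Nd S i x := by
  obtain ⟨Q, N, h1, h2, h3, h4⟩ := exists_tail hq S.pres hi
  have h5 : S.aff0.fromSpec Q ∈ S.O (some i) := (mem_some S (fromSpec_mem _ _) i).mpr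
    ⟨(fromSpec_mem_basicOpen _ _ _).mpr h1, fun l => zc_other S hq (fromSpec_mem _ _)
      fun h => (fromSpec_mem_basicOpen _ _ _).mp h h2⟩
  refine ⟨S.aff0.fromSpec N, closure_minimal (Set.singleton_subset_iff.mpr (hη _ h5))
    isClosed_closure (mem_closure_of S.aff0 (fromSpec_mem _ _) fun f hf =>
      (fromSpec_mem_basicOpen _ _ _).mpr fun h => (fromSpec_mem_basicOpen _ _ _).mp hf (h3 h)),
    fromSpec_mem _ _, fun h => (fromSpec_mem_basicOpen _ _ _).mp h (h3 h2),
    fun h => (fromSpec_mem_basicOpen _ _ _).mp h h4⟩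

end Main

theorem stdPre (hH : SH1Std) (hA : SCplA) (hB : SCplB) (hC : SCplC) : SStdPre := by
  rintro k _ _ D F q t hq ⟨S⟩
  choose η η0 ηO hη using exists_eta S hq
  have pt : ∀ p : Spec (.of k), p = closedPoint k := fun p =>
    Subsingleton.elim (α := PrimeSpectrum k) _ _
  -- on a tail the function `z - q i` vanishes
  have tail : ∀ i, t i = 0 → ∀ x ∈ closure {η (some i)}, x ∉ F.C.basicOpen (zc S (q i)) :=
    fun i hi x hx h => (t_ne_iff S (η0 _) i).mp
      ⟨mem_of_closure hx h, ((mem_some S (η0 _) i).mp (ηO _)).1⟩ hi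
  have cov : ∀ x, x ∈ closure {η none} ∨ ∃ i, t i = 0 ∧ x ∈ closure {η (some i)} := by
    have h1 : ∀ i, ∀ x ∈ S.O (some i),
        x ∈ closure {η none} ∨ ∃ i, t i = 0 ∧ x ∈ closure {η (some i)} := fun i x hx => by
      by_cases hi : t i = 0
      · exact .inr ⟨i, hi, hη _ x hx⟩
      refine .inl (closure_minimal (Set.singleton_subset_iff.mpr ?_) isClosed_closure (hη _ x hx))
      refine mem_main S (hη _) (η0 _) fun l => .inl ?_
      by_cases e : l = i
      · exact e ▸ ((t_ne_iff S (η0 _) i).mpr hi).1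
      · exact ((mem_some S (η0 _) i).mp (ηO _)).2 l e
    intro x
    rcases mem_cover S x with hx | ⟨_ | i, hx⟩
    · by_cases h : ∀ l, x ∈ F.C.basicOpen (zc S (q l))
      · exact .inl (mem_main S (hη _) hx fun l => .inl (h l))
      obtain ⟨i, hi⟩ := not_forall.mp h
      by_cases h' : x ∈ F.C.basicOpen (S.u (some i))
      · exact h1 i x ((mem_some S hx i).mpr ⟨h', fun l => zc_other S hq hx hi⟩)
      · exact .inl (Nd.mem_main S hq (hη _) (by_contra fun e => hi ((t_ne_iff S hx i).mpr e).1)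
          ⟨hx, hi, h'⟩)
    · exact .inl (hη _ x hx)
    · exact h1 i x hx
  have irr : ∀ x : F.C, IsIrreducible (closure {x}) := fun _ => isIrreducible_singleton.closure
  have comps : ∀ Z ∈ irreducibleComponents F.C,
      Z = closure {η none} ∨ ∃ i, t i = 0 ∧ Z = closure {η (some i)} := fun Z hZ => by
    obtain ⟨x, hx⟩ := QuasiSober.sober hZ.1 (isClosed_of_mem_irreducibleComponents _ hZ)
    have key : ∀ y, x ∈ closure {y} → Z = closure {y} := fun y hy => by
      have : Z ⊆ closure {y} := hx.def ▸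
        closure_minimal (Set.singleton_subset_iff.mpr hy) isClosed_closure
      exact this.antisymm (hZ.2 (irr y) this)
    exact (cov x).imp (key _) fun ⟨i, hi, h⟩ => ⟨i, hi, key _ h⟩
  have v0 : F.σ 0 (closedPoint k) ∉ F.C.basicOpen (zc S 0) :=
    not_mem_of_ev _ S.h0 (by rw [zc, map_zero, sub_zero, S.e0])
  have v1 : F.σ 1 (closedPoint k) ∉ F.C.basicOpen (zc S 1) :=
    not_mem_of_ev _ S.h1 (by rw [zc, map_one, map_sub, S.e1, map_one, sub_self])
  have v2 := not_mem_of_ev _ S.h2 S.e2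
  have m0 : F.σ 0 (closedPoint k) ∈ S.O0 := S.h0 (Set.mem_univ _)
  have m1 : F.σ 1 (closedPoint k) ∈ S.O0 := S.h1 (Set.mem_univ _)
  have m2 : F.σ 2 (closedPoint k) ∈ S.O none := S.h2 (Set.mem_univ _)
  have n2 : F.σ 2 (closedPoint k) ∉ S.O0 := fun h => v2 ((S.inter none).le ⟨h, m2⟩)
  have q0 : ∀ l, 0 ≠ q l := fun l => (hq.2 l).1.ne_zero.symm
  have q1 : ∀ l, 1 ≠ q l := fun l => (sub_ne_zero.mp (hq.2 l).2.ne_zero).symm
  have nodes : ∀ x, LocType (NodeRing k) F.C x → ∃ i, Nd S i x := fun x hx =>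
    (classify S hA hB hq hx.1).resolve_left fun h => not_node h hx
  refine ⟨⟨?_, hH k D F q t hq ⟨S⟩,
    fun x hx => (classify S hA hB hq hx).imp id fun ⟨i, hi⟩ => hi.node S hC hq, fun i p => ?_,
    fun i j p h => ?_⟩, ?_, closure {η none}, ?_, fun i p => ?_, fun Z hZ hne => ?_⟩
  · refine connectedSpace_iff_univ.mpr ⟨⟨η none, trivial⟩,
      isPreconnected_of_forall (η none) fun x _ => ?_⟩
    have hM := (irr (η none)).isConnected.isPreconnected
    rcases cov x with h | ⟨i, hi, h⟩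
    · exact ⟨closure {η none}, Set.subset_univ _, subset_closure rfl, h, hM⟩
    · obtain ⟨y, hy, hN⟩ := exists_nd S hq hi (hη _)
      exact ⟨closure {η none} ∪ closure {η (some i)}, Set.subset_univ _,
        .inl (subset_closure rfl), .inr h,
        hM.union y (hN.mem_main S hq (hη _) hi) hy (irr _).isConnected.isPreconnected⟩
  · rw [pt p]
    have hc := isClosed_section (F.σ i) (F.sec i)
    fin_cases i
    · exact smooth0 S hB hq m0 hc v0 q0
    · exact smooth0 S hB hq m1 hc v1 q1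
    · exact smooth1 S hA m2 hc (c := 0) (by simpa using v2)
  · rw [pt p] at h
    have h01 : F.σ 0 (closedPoint k) ≠ F.σ 1 (closedPoint k) := fun e =>
      zero_ne_one (const_eq m0 v0 (e ▸ v1))
    have h02 : F.σ 0 (closedPoint k) ≠ F.σ 2 (closedPoint k) := fun e => n2 (e ▸ m0)
    have h12 : F.σ 1 (closedPoint k) ≠ F.σ 2 (closedPoint k) := fun e => n2 (e ▸ m1)
    fin_cases i <;> fin_cases j
    exacts [rfl, absurd h h01, absurd h h02, absurd h.symm h01, rfl, absurd h h12,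
      absurd h.symm h02, absurd h.symm h12, rfl]
  · have : ∀ i, ∃ y, ∀ x, Nd S i x → x = y := fun i => by
      by_cases h : ∃ y, Nd S i y
      · exact h.imp fun y hy x hx => hx.unique S hq hy
      · exact ⟨η none, fun x hx => absurd ⟨x, hx⟩ h⟩
    choose g hg using this
    refine (Set.encard_le_encard (t := g '' Set.univ) fun x hx => ?_).trans
      ((Set.encard_image_le _ _).trans (by simp))
    obtain ⟨i, hi⟩ := nodes x hx
    exact ⟨i, trivial, (hg i x hi).symm⟩
  · obtain ⟨Z, hZ, h⟩ := exists_mem_irreducibleComponents_subset_of_isIrreducible _ (irr (η none))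
    rcases comps Z hZ with e | ⟨i, hi, e⟩
    · exact e ▸ hZ
    · exact absurd (((mem_none S (η0 _)).mp (ηO _)).2 i)
        (tail i hi _ (e ▸ h (subset_closure rfl)))
  · rw [pt p]
    fin_cases i
    · exact mem_main S (hη _) m0 fun l => .inl (by_contra fun h => q0 l (const_eq m0 v0 h))
    · exact mem_main S (hη _) m1 fun l => .inl (by_contra fun h => q1 l (const_eq m1 v1 h))
    · exact hη _ _ m2
  · obtain ⟨i, hi, rfl⟩ := (comps Z hZ).resolve_left hne
    obtain ⟨y, hy, hN⟩ := exists_nd S hq hi (hη _)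
    refine ⟨y, ⟨hy, hN.node S hC hq⟩, fun x hx => ?_⟩
    obtain ⟨l, hl⟩ := nodes x hx.2
    obtain rfl : l = i := by_contra fun e => hl.2.1 (zc_other S hq hl.1 (tail i hi x hx.1) e)
    exact hl.unique S hq hN

/-- The same statement with the full list of hypotheses of the plan. -/
theorem stdPre' : SExt → SSec → SDense → SPole → SH1Std → SCplA → SCplB → SCplC → SStdPre :=
  fun _ _ _ _ => stdPre

end Pool.Agent.MP_52bf41_ag.H36
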